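import Pool.Agent.H19.SYA.TA

/-!
# Symplectic torus actions: elements killed modulo `g`
-/

set_option autoImplicit false

namespace Pool.Agent.H81.SYA

open MvPolynomial Pool.Agent.H2.ST Pool.Agent.H15.TG Pool.Agent.H19.SYA

/-- two elements killed modulo `g` are dependent modulo `g` -/
theorem chu_dep (hCHZ : T_CHZ) (hAI1 : T_AI1) (hAI2 : T_AI2) (k : Type) [Field k]
    [IsAlgClosed k] [CharZero k] (W : ℤ → Submodule k (Pol k 2)) (H : Pol k 2)
    (y : Fin 2 ⊕ Fin 2 → Pol k 2) (w : Fin 2 → ℤ) (g f : Pol k 2) (α β : ℤ) (hy : Hy W H y w)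
    (hG : Gp W g f α β) (u : Fin 2 → Pol k 2) (h1 : ∀ i, g ∣ br g (u i))
    (h2 : ∀ i, g ∣ br f (u i)) : ¬ Imod k (Ideal.span {g}) u := by
  classical
  intro hI
  obtain ⟨z, r, hz, z1, z2, z3⟩ := hCHZ k W H y w g f α β hy hG
  have hfg : br f g = 0 := by rw [br_anti, hG.gf, neg_zero]
  have hprime : (Ideal.span {g} : Ideal (Pol k 2)).IsPrime :=
    (Ideal.span_singleton_prime hG.pg.ne_zero).2 hG.pg
  have key := hAI1 k (Pol k 2) (Fin 2) (Fin 2) (Ideal.span {g}) u ![H, z] ![ad f, ad g] hprime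
    (by
      intro i x hx
      rw [Ideal.mem_span_singleton] at hx ⊢
      obtain ⟨x', rfl⟩ := hx
      fin_cases i
      · change g ∣ ad f (g * x')
        rw [ad_apply, br_mul, hfg, mul_zero, add_zero]
        exact Dvd.intro _ rfl
      · change g ∣ ad g (g * x')
        rw [ad_apply, br_mul, br_self, mul_zero, add_zero]
        exact Dvd.intro _ rfl)
    (by
      intro i j
      rw [Ideal.mem_span_singleton]
      fin_cases i
      · change g ∣ ad f (u j)
        rw [ad_apply]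
        exact h2 j
      · change g ∣ ad g (u j)
        rw [ad_apply]
        exact h1 j)
    (by
      rw [Matrix.det_fin_two, Ideal.mem_span_singleton]
      change ¬ g ∣ ad f H * ad g z - ad f z * ad g H
      rw [ad_apply, ad_apply, ad_apply, ad_apply, hy.HE β f hG.hf]
      intro hd
      have e1 : g ∣ br f z * br g H := Dvd.dvd.mul_right z1 _
      have e2 : g ∣ (β : k) • f * br g z := by
        have := dvd_add hd e1
        rwa [sub_add_cancel] at this
      rcases hG.pg.dvd_or_dvd e2 with h | h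
      · apply hG.nd
        have hb : (β : k) ≠ 0 := by exact_mod_cast hG.pb.ne'
        rw [smul_eq_C_mul] at h
        rcases hG.pg.dvd_or_dvd h with h' | h'
        · exact absurd (isUnit_of_dvd_unit h' (IsUnit.map C (isUnit_iff_ne_zero.2 hb)))
            hG.pg.not_isUnit
        · exact h'
      · exact z2 h)
    hI
  have ind := hAI2 k (Pol k 2) (Fin 2 ⊕ Fin 2) g _ hG.pg key
  have hc := ind.lift_cardinalMk_le_trdeg
  rw [MvPolynomial.trdeg_of_isDomain] at hc
  simp only [Cardinal.mk_fintype, Cardinal.lift_natCast, Fintype.card_sum, Fintype.card_fin,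
    Fintype.card_unit] at hc
  have : (2 + 2 + 1 : ℕ) ≤ 2 + 2 := by exact_mod_cast hc
  omega

section

variable {k : Type} [Field k] {W : ℤ → Submodule k (Pol k 2)}

/-- divisibility of the components by a homogeneous element -/
theorem dvd_cmp (hG : Gr W) {g F : Pol k 2} {α : ℤ} (hg : g ∈ W α) (hd : g ∣ F) (m : ℤ) :
    g ∣ cmp hG F m := by
  obtain ⟨F', rfl⟩ := hd
  have h1 := cmp_mul_of_mem hG hg F' (m - α)
  rw [sub_add_cancel, mul_comm F' g] at h1
  rw [h1]
  exact Dvd.intro_left _ rfl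

/-- an element of a field satisfying a polynomial equation over an algebraically closed field -/
theorem alg_const [IsAlgClosed k] {L : Type} [Field L] [Algebra k L] (t : L) (q : Polynomial k)
    (hq : q ≠ 0) (h : Polynomial.aeval t q = 0) : ∃ c : k, t = algebraMap k L c := by
  have hint : IsIntegral k t := (isAlgebraic_iff_isIntegral).1 ⟨q, hq, h⟩
  have hdeg : (minpoly k t).degree = 1 :=
    IsAlgClosed.degree_eq_one_of_irreducible k (minpoly.irreducible hint)
  obtain ⟨c, hc⟩ := minpoly.mem_range_of_degree_eq_one k t hdeg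
  exact ⟨c, hc.symm⟩

end

/-- two elements of the same nonzero weight killed modulo `g` are proportional -/
theorem chu_prop (hCHZ : T_CHZ) (hAI1 : T_AI1) (hAI2 : T_AI2) (k : Type) [Field k]
    [IsAlgClosed k] [CharZero k] (W : ℤ → Submodule k (Pol k 2)) (H : Pol k 2)
    (y : Fin 2 ⊕ Fin 2 → Pol k 2) (w : Fin 2 → ℤ) (g f : Pol k 2) (α β : ℤ) (hy : Hy W H y w)
    (hG : Gp W g f α β) (u v : Pol k 2) (m : ℤ) (hm : m ≠ 0) (hu : u ∈ W m) (hv : v ∈ W m)
    (gu : g ∣ br g u) (fu : g ∣ br f u) (gv : g ∣ br g v) (fv : g ∣ br f v) (hgu : ¬ g ∣ u)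
    (hgv : ¬ g ∣ v) : ∃ c : k, c ≠ 0 ∧ g ∣ u - C c * v := by
  classical
  have hdep := chu_dep hCHZ hAI1 hAI2 k W H y w g f α β hy hG ![u, v]
    (by intro i; fin_cases i; exacts [gu, gv]) (by intro i; fin_cases i; exacts [fu, fv])
  unfold Imod at hdep
  push Not at hdep
  obtain ⟨P, hP, hP0⟩ := hdep
  rw [Ideal.mem_span_singleton] at hP
  -- the relation as a sum
  have hsum : aeval ![u, v] P = ∑ d ∈ P.support, C (coeff d P) * (u ^ d 0 * v ^ d 1) := by
    rw [aeval_def, eval₂_eq']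
    refine Finset.sum_congr rfl fun d _ => ?_
    rw [Fin.prod_univ_two]
    rfl
  have hw : ∀ d : Fin 2 →₀ ℕ, C (coeff d P) * (u ^ d 0 * v ^ d 1) ∈ W ((d 0 + d 1 : ℕ) * m) := by
    intro d
    rw [← smul_eq_C_mul]
    refine (W _).smul_mem _ ?_
    have e1 := pow_mem_gr hy.toGr hu (d 0)
    have e2 := pow_mem_gr hy.toGr hv (d 1)
    have e3 := hy.mul _ _ _ _ e1 e2
    rw [nsmul_eq_mul, nsmul_eq_mul, ← add_mul] at e3
    push_cast
    exact e3
  obtain ⟨d₀, hd₀⟩ : ∃ d, d ∈ P.support := by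
    by_contra hcon
    push Not at hcon
    exact hP0 (support_eq_empty.1 (Finset.eq_empty_of_forall_notMem hcon))
  obtain ⟨N, hN⟩ : ∃ N, N = d₀ 0 + d₀ 1 := ⟨_, rfl⟩
  have hcmp : cmp hy.toGr (aeval ![u, v] P) ((N : ℤ) * m) =
      ∑ d ∈ P.support with d 0 + d 1 = N, C (coeff d P) * (u ^ d 0 * v ^ d 1) := by
    rw [hsum, map_sum, Finsupp.finsetSum_apply, Finset.sum_filter]
    refine Finset.sum_congr rfl fun d _ => ?_
    rw [cmp_of_mem hy.toGr (hw d), Finsupp.single_apply]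
    by_cases hdN : d 0 + d 1 = N
    · rw [if_pos (by rw [hdN]), if_pos hdN]
    · rw [if_neg, if_neg hdN]
      intro h
      apply hdN
      have := mul_right_cancel₀ hm h
      exact_mod_cast this
  have hdvd := dvd_cmp hy.toGr hG.hg hP ((N : ℤ) * m)
  rw [hcmp] at hdvd
  -- the field
  have hprime : (Ideal.span {g} : Ideal (Pol k 2)).IsPrime :=
    (Ideal.span_singleton_prime hG.pg.ne_zero).2 hG.pg
  obtain ⟨L, _, _, φ, hφ⟩ : ∃ (L : Type) (_ : Field L) (_ : Algebra k L)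
      (φ : Pol k 2 →ₐ[k] L), ∀ x, φ x = 0 ↔ g ∣ x := by
    let R := Pol k 2 ⧸ (Ideal.span {g} : Ideal (Pol k 2))
    let L := FractionRing R
    refine ⟨L, inferInstance, inferInstance,
      (IsScalarTower.toAlgHom k R L).comp (Ideal.Quotient.mkₐ k (Ideal.span {g})), ?_⟩
    intro x
    change algebraMap R L (Ideal.Quotient.mk _ x) = 0 ↔ _
    rw [FaithfulSMul.algebraMap_eq_zero_iff R L, Ideal.Quotient.eq_zero_iff_mem,
      Ideal.mem_span_singleton]
  have hu0 : φ u ≠ 0 := fun h => hgu ((hφ u).1 h)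
  have hv0 : φ v ≠ 0 := fun h => hgv ((hφ v).1 h)
  obtain ⟨q, hq⟩ : ∃ q : Polynomial k, q = ∑ d ∈ P.support with d 0 + d 1 = N,
    Polynomial.C (coeff d P) * Polynomial.X ^ d 0 := ⟨_, rfl⟩
  have hq0 : q ≠ 0 := by
    intro h0
    have h1 := congrArg (fun p : Polynomial k => p.coeff (d₀ 0)) (hq.symm.trans h0)
    simp only [Polynomial.finsetSum_coeff, Polynomial.coeff_C_mul, Polynomial.coeff_X_pow,
      Polynomial.coeff_zero] at h1
    rw [Finset.sum_eq_single d₀] at h1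
    · rw [if_pos rfl, mul_one] at h1
      exact (mem_support_iff.1 hd₀) h1
    · intro d hd hne
      rw [if_neg, mul_zero]
      intro h2
      apply hne
      rw [Finset.mem_filter] at hd
      ext i
      fin_cases i
      · exact h2.symm
      · have h3 : d 0 + d 1 = d₀ 0 + d₀ 1 := hd.2.trans hN
        change d 1 = d₀ 1
        omega
    · intro h2
      exact absurd (Finset.mem_filter.2 ⟨hd₀, hN.symm⟩) h2
  have hroot : Polynomial.aeval (φ u / φ v) q = 0 := by
    have h1 := (hφ _).2 hdvd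
    rw [map_sum] at h1
    have h2 : φ v ^ N * Polynomial.aeval (φ u / φ v) q = 0 := by
      rw [← h1, hq, map_sum, Finset.mul_sum]
      refine Finset.sum_congr rfl fun d hd => ?_
      rw [Finset.mem_filter] at hd
      rw [map_mul, map_mul, map_mul, map_pow, map_pow, map_pow, Polynomial.aeval_C,
        Polynomial.aeval_X, div_pow, ← hd.2, pow_add]
      have h3 : φ (C (coeff d P)) = algebraMap k L (coeff d P) := φ.commutes _
      rw [h3]
      have h4 : φ u ^ d 0 / φ v ^ d 0 * φ v ^ d 0 = φ u ^ d 0 :=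
        div_mul_cancel₀ _ (pow_ne_zero _ hv0)
      conv_rhs => rw [← h4]
      ring
    exact (mul_eq_zero.1 h2).resolve_left (pow_ne_zero _ hv0)
  obtain ⟨c, hc⟩ := alg_const _ q hq0 hroot
  have hc' : φ u = algebraMap k L c * φ v := by
    rw [← hc, div_mul_cancel₀ _ hv0]
  refine ⟨c, ?_, ?_⟩
  · rintro rfl
    rw [map_zero, zero_mul] at hc'
    exact hu0 hc'
  · rw [← hφ, map_sub, map_mul, hc', sub_eq_zero]
    exact congrArg (· * φ v) (φ.commutes c).symm

/-- the same for all weights -/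
theorem chu_prop' (hCHZ : T_CHZ) (hAI1 : T_AI1) (hAI2 : T_AI2) (k : Type) [Field k]
    [IsAlgClosed k] [CharZero k] (W : ℤ → Submodule k (Pol k 2)) (H : Pol k 2)
    (y : Fin 2 ⊕ Fin 2 → Pol k 2) (w : Fin 2 → ℤ) (g f : Pol k 2) (α β : ℤ) (hy : Hy W H y w)
    (hG : Gp W g f α β) (u v : Pol k 2) (m : ℤ) (hu : u ∈ W m) (hv : v ∈ W m)
    (gu : g ∣ br g u) (fu : g ∣ br f u) (gv : g ∣ br g v) (fv : g ∣ br f v) (hgu : ¬ g ∣ u)
    (hgv : ¬ g ∣ v) : ∃ c : k, c ≠ 0 ∧ g ∣ u - C c * v := by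
  by_cases hm : m = 0
  · subst hm
    have hfm : ∀ x ∈ W (0 : ℤ), f * x ∈ W β := by
      intro x hx
      have := hy.mul _ _ _ _ hG.hf hx
      rwa [add_zero] at this
    have hgf : ∀ x, g ∣ br g x → g ∣ br g (f * x) := by
      intro x hx
      rw [br_mul, hG.gf, mul_zero, add_zero]
      exact Dvd.dvd.mul_left hx _
    have hff : ∀ x, g ∣ br f x → g ∣ br f (f * x) := by
      intro x hx
      rw [br_mul, br_self, mul_zero, add_zero]
      exact Dvd.dvd.mul_left hx _
    obtain ⟨c, hc, h⟩ := chu_prop hCHZ hAI1 hAI2 k W H y w g f α β hy hG (f * u) (f * v) β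
      hG.pb.ne' (hfm u hu) (hfm v hv) (hgf u gu) (hff u fu) (hgf v gv) (hff v fv)
      (fun hd => (hG.pg.dvd_or_dvd hd).elim hG.nd hgu)
      (fun hd => (hG.pg.dvd_or_dvd hd).elim hG.nd hgv)
    refine ⟨c, hc, ?_⟩
    have e : f * u - C c * (f * v) = f * (u - C c * v) := by ring
    rw [e] at h
    exact (hG.pg.dvd_or_dvd h).resolve_left hG.nd
  · exact chu_prop hCHZ hAI1 hAI2 k W H y w g f α β hy hG u v m hm hu hv gu fu gv fv hgu hgv

/-- **elements killed by `{g, ·}` and `{f, ·}` modulo `g`** -/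
theorem pf_CHU (hCHZ : T_CHZ) (hAI1 : T_AI1) (hAI2 : T_AI2) : Pool.Agent.H19.SYA.T_CHU := by
  intro k _ _ _ W H y w g f α β hy hG n U hU gU fU hgU
  have hb : ((β.toNat : ℕ) : ℤ) = β := Int.toNat_of_nonneg hG.pb.le
  have hpw : ∀ (p q x : Pol k 2) (N : ℕ), q ∣ br p x → q ∣ br p (x ^ N) := by
    intro p q x N h
    rw [br_pow]
    exact Dvd.dvd.mul_left h _
  have hUb : U ^ β.toNat ∈ W (β * n) := by
    have := pow_mem_gr hy.toGr hU β.toNat
    rwa [nsmul_eq_mul, hb] at this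
  have hfN : ∀ N : ℕ, f ^ N ∈ W (N * β) := by
    intro N
    have := pow_mem_gr hy.toGr hG.hf N
    rwa [nsmul_eq_mul] at this
  have hgUb : ¬ g ∣ U ^ β.toNat := fun hd => hgU (hG.pg.dvd_of_dvd_pow hd)
  have hgfN : ∀ N : ℕ, ¬ g ∣ f ^ N := fun N hd => hG.nd (hG.pg.dvd_of_dvd_pow hd)
  have hf1 : ∀ N : ℕ, g ∣ br g (f ^ N) := fun N => hpw g g f N (by rw [hG.gf]; exact dvd_zero g)
  have hf2 : ∀ N : ℕ, g ∣ br f (f ^ N) := fun N => hpw f g f N (by rw [br_self]; exact dvd_zero g)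
  by_cases hn : 0 ≤ n
  · refine ⟨hn, ?_⟩
    refine chu_prop' hCHZ hAI1 hAI2 k W H y w g f α β hy hG (U ^ β.toNat) (f ^ n.toNat) (β * n)
      hUb ?_ (hpw g g U _ gU) (hpw f g U _ fU) (hf1 _) (hf2 _) hgUb (hgfN _)
    have := hfN n.toNat
    rwa [Int.toNat_of_nonneg hn, mul_comm] at this
  · exfalso
    have hn' : ((n.natAbs : ℕ) : ℤ) = -n := by omega
    have hz : U ^ β.toNat * f ^ n.natAbs ∈ W 0 := by
      have := hy.mul _ _ _ _ hUb (hfN n.natAbs)
      rw [hn'] at this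
      have e : β * n + -n * β = 0 := by ring
      rwa [e] at this
    obtain ⟨c, hc, h⟩ := chu_prop' hCHZ hAI1 hAI2 k W H y w g f α β hy hG
      (U ^ β.toNat * f ^ n.natAbs) 1 0 hz hy.one
      (by
        rw [br_mul]
        exact dvd_add (Dvd.dvd.mul_left (hf1 _) _) (Dvd.dvd.mul_left (hpw g g U _ gU) _))
      (by
        rw [br_mul]
        exact dvd_add (Dvd.dvd.mul_left (hf2 _) _) (Dvd.dvd.mul_left (hpw f g U _ fU) _))
      (by rw [br_one]; exact dvd_zero g) (by rw [br_one]; exact dvd_zero g)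
      (fun hd => (hG.pg.dvd_or_dvd hd).elim hgUb (hgfN _))
      (fun hd => hG.pg.not_isUnit (isUnit_of_dvd_one hd))
    obtain ⟨x, hx⟩ := h
    have h0 := congrArg (constantCoeff : Pol k 2 →+* k) hx
    rw [map_sub, map_mul, map_mul, map_mul, map_pow, map_pow, hy.van α hG.pa.ne' g hG.hg,
      hy.van β hG.pb.ne' f hG.hf, zero_mul, zero_pow (by omega), mul_zero, zero_sub, map_one,
      mul_one, constantCoeff_C, neg_eq_zero] at h0
    exact hc h0

end Pool.Agent.H81.SYA
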