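import Pool.Agent.H19.SYA.TA

/-!
# Symplectic torus actions: the number `l`
-/

set_option autoImplicit false

namespace Pool.Agent.H81.SYA

open MvPolynomial Pool.Agent.H2.ST Pool.Agent.H19.SYA

/-- numerical semigroups -/
theorem semi (S : Set ℕ) (h0 : 0 ∈ S) (hadd : ∀ a ∈ S, ∀ b ∈ S, a + b ∈ S)
    (hpos : ∃ a ∈ S, 0 < a) :
    ∃ e : ℕ, 0 < e ∧ (∀ a ∈ S, e ∣ a) ∧ ∃ M, ∀ n, M ≤ n → e ∣ n → n ∈ S := by
  refine ⟨Nat.setGcd S, ?_, fun a ha => Nat.setGcd_dvd_of_mem ha, ?_⟩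
  · obtain ⟨a, ha, ha'⟩ := hpos
    exact Nat.pos_of_dvd_of_pos (Nat.setGcd_dvd_of_mem ha) ha'
  · obtain ⟨M, hM⟩ := Nat.exists_mem_closure_of_ge (s := S)
    refine ⟨M, fun n hn hd => ?_⟩
    have h1 := hM n hn hd
    let T : AddSubmonoid ℕ :=
      { carrier := S
        zero_mem' := h0
        add_mem' := fun ha hb => hadd _ ha _ hb }
    have h2 : AddSubmonoid.closure S ≤ T := AddSubmonoid.closure_le.2 fun x hx => hx
    exact h2 h1

section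

variable {k : Type} [Field k] {W : ℤ → Submodule k (Pol k 2)}

/-- quotients of homogeneous elements are homogeneous -/
theorem quo_mem (hG : Gr W) {h u u' : Pol k 2} {r n : ℤ} (hh : h ∈ W r) (h0 : h ≠ 0)
    (hu : u ∈ W n) (e : u = h * u') : u' ∈ W (n - r) := by
  refine mem_of_cmp hG fun b hb => ?_
  have h1 := cmp_mul_of_mem hG hh u' b
  rw [mul_comm u' h, ← e, cmp_of_mem hG hu, Finsupp.single_apply, if_neg (by omega)] at h1
  exact (mul_eq_zero.1 h1.symm).resolve_right h0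

theorem prime_NC {h : Pol k 2} (hh : Prime h) : NC h := by
  rintro ⟨c, rfl⟩
  refine hh.not_isUnit (IsUnit.map C (isUnit_iff_ne_zero.2 fun hc => hh.ne_zero ?_))
  rw [hc, map_zero]

/-- the weights of elements of `K` are nonnegative -/
theorem wt_nonneg (hP : PGr W) {K : Subalgebra k (Pol k 2)} (hK : CC W K) {n : ℤ} {u : Pol k 2}
    (hu : u ∈ K) (hn : u ∈ W n) (h0 : u ≠ 0) : 0 ≤ n := by
  by_cases hc : NC u
  · exact (hK.ps n u hu hn hc).le
  · unfold NC at hc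
    rw [not_not] at hc
    obtain ⟨c, rfl⟩ := hc
    have h1 : (C c : Pol k 2) ∈ W 0 := algebraMap_mem_gr hP.toGr c
    exact (wt_uniq hP.toGr hn h1 h0).ge

/-- the weights of the elements of `K` not divisible by `h` -/
def SG (W : ℤ → Submodule k (Pol k 2)) (K : Subalgebra k (Pol k 2)) (h : Pol k 2) : Set ℕ :=
  {n | ∃ u ∈ K, u ∈ W (n : ℤ) ∧ ¬ h ∣ u}

/-- division in `K` -/
theorem div_K (hP : PGr W) {K : Subalgebra k (Pol k 2)} (hK : CC W K) {h u : Pol k 2} {r n : ℤ}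
    (hh : h ∈ W r) (hn : u ∈ W n) (hu : u ∈ K) (hhp : Prime h) (hd : h ∣ u) :
    ∃ u' ∈ K, u' ∈ W (n - r) ∧ u = h * u' := by
  obtain ⟨u', rfl⟩ := hd
  by_cases h0 : h * u' = 0
  · have : u' = 0 := (mul_eq_zero.1 h0).resolve_left hhp.ne_zero
    exact ⟨u', by rw [this]; exact K.zero_mem, by rw [this]; exact (W _).zero_mem, rfl⟩
  · exact ⟨u', (hK.fc h u' h0 hu).2, quo_mem hP.toGr hh hhp.ne_zero hn rfl, rfl⟩

end

/-- one inclusion between the Apery sets -/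
theorem ap_sub (hCLI : T_CLI) (k : Type) [Field k] [IsAlgClosed k] [CharZero k]
    (W : ℤ → Submodule k (Pol k 2)) (H : Pol k 2) (y : Fin 2 ⊕ Fin 2 → Pol k 2) (w : Fin 2 → ℤ)
    (K : Subalgebra k (Pol k 2)) (hy : Hy W H y w) (hK : CC W K) (g h : Pol k 2) (a b : ℕ)
    (hh : Prime h) (hgK : g ∈ K) (hhK : h ∈ K) (hga : g ∈ W a) (hhb : h ∈ W b)
    (hhg : ¬ h ∣ g) (n : ℕ)
    (hn : n ∈ SG W K g ∧ ¬ ∃ t ∈ SG W K g, t + b = n) :
    n ∈ SG W K h ∧ ¬ ∃ t ∈ SG W K h, t + a = n := by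
  obtain ⟨⟨u, huK, huW, hgu⟩, hno⟩ := hn
  -- elements of weight `n - b` are divisible by `g`
  have key : ∀ v ∈ K, v ∈ W ((n : ℤ) - b) → g ∣ v := by
    intro v hvK hvW
    by_contra hgv
    have hv0 : v ≠ 0 := fun h0 => hgv (h0 ▸ dvd_zero g)
    have h1 := wt_nonneg hy.toPGr hK hvK hvW hv0
    apply hno
    refine ⟨((n : ℤ) - b).toNat, ⟨v, hvK, ?_, hgv⟩, by omega⟩
    rw [Int.toNat_of_nonneg h1]
    exact hvW
  constructor
  · refine ⟨u, huK, huW, fun hd => ?_⟩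
    obtain ⟨u', hu'K, hu'W, rfl⟩ := div_K hy.toPGr hK hhb huW huK hh hd
    exact hgu (Dvd.dvd.mul_left (key u' hu'K hu'W) h)
  · rintro ⟨t, ⟨v, hvK, hvW, hhv⟩, rfl⟩
    have h1 : ¬ h ∣ g * v := fun hd => (hh.dvd_or_dvd hd).elim hhg hhv
    have h2 : g * v ∈ W ((t + a : ℕ) : ℤ) := by
      have := hy.mul _ _ _ _ hga hvW
      rw [add_comm] at this
      push_cast
      exact this
    obtain ⟨c, hc⟩ := hCLI k W H y w K hy hK b ((t + a : ℕ) : ℤ) h (g * v) u hh hhK hhb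
      (K.mul_mem hgK hvK) huK h2 huW h1
    have h3 : u - C c * (g * v) ∈ K :=
      K.sub_mem huK (K.mul_mem (K.algebraMap_mem c) (K.mul_mem hgK hvK))
    have h4 : u - C c * (g * v) ∈ W ((t + a : ℕ) : ℤ) := by
      refine (W _).sub_mem huW ?_
      rw [← smul_eq_C_mul]
      exact (W _).smul_mem c h2
    obtain ⟨u', hu'K, hu'W, he⟩ := div_K hy.toPGr hK hhb h4 h3 hh hc
    have h5 : g ∣ u' := key u' hu'K hu'W
    apply hgu
    have h6 : u = C c * (g * v) + h * u' := by rw [← he]; ring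
    rw [h6]
    exact dvd_add (Dvd.dvd.mul_left (Dvd.intro _ rfl) _) (Dvd.dvd.mul_left h5 _)

/-- the number `e` of a prime -/
def EN {k : Type} [Field k] (W : ℤ → Submodule k (Pol k 2)) (K : Subalgebra k (Pol k 2))
    (h : Pol k 2) (e : ℕ) : Prop :=
  0 < e ∧ (∀ a ∈ SG W K h, e ∣ a) ∧ ∃ M, ∀ n, M ≤ n → e ∣ n → n ∈ SG W K h

/-- the products `e ω` of two primes agree -/
theorem prod_eq (hCLI : T_CLI) (hAPE : T_APE) (k : Type) [Field k] [IsAlgClosed k] [CharZero k]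
    (W : ℤ → Submodule k (Pol k 2)) (H : Pol k 2) (y : Fin 2 ⊕ Fin 2 → Pol k 2) (w : Fin 2 → ℤ)
    (K : Subalgebra k (Pol k 2)) (hy : Hy W H y w) (hK : CC W K) (g h : Pol k 2) (a b : ℕ)
    (hg : Prime g) (hh : Prime h) (hgK : g ∈ K) (hhK : h ∈ K) (hga : g ∈ W a) (hhb : h ∈ W b)
    (hgh : ¬ g ∣ h) (hhg : ¬ h ∣ g) (ha : 0 < a) (hb : 0 < b) (e e' : ℕ) (he : EN W K g e)
    (he' : EN W K h e') : e * a = e' * b := by
  have h0 : ∀ p : Pol k 2, Prime p → 0 ∈ SG W K p := by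
    intro p hp
    refine ⟨1, K.one_mem, ?_, fun hd => hp.not_isUnit (isUnit_of_dvd_one hd)⟩
    rw [Nat.cast_zero]
    exact hy.one
  have hadd : ∀ p : Pol k 2, Prime p → ∀ c ∈ SG W K p, ∀ d ∈ SG W K p, c + d ∈ SG W K p := by
    rintro p hp c ⟨u, hu1, hu2, hu3⟩ d ⟨v, hv1, hv2, hv3⟩
    refine ⟨u * v, K.mul_mem hu1 hv1, ?_, fun hd => (hp.dvd_or_dvd hd).elim hu3 hv3⟩
    push_cast
    exact hy.mul _ _ _ _ hu2 hv2
  have hs : {n : ℕ | n ∈ SG W K g ∧ ¬ ∃ t ∈ SG W K g, t + b = n} =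
      {n : ℕ | n ∈ SG W K h ∧ ¬ ∃ t ∈ SG W K h, t + a = n} := by
    ext n
    simp only [Set.mem_ofPred_eq]
    exact ⟨ap_sub hCLI k W H y w K hy hK g h a b hh hgK hhK hga hhb hhg n,
      ap_sub hCLI k W H y w K hy hK h g b a hg hhK hgK hhb hga hgh n⟩
  have e1 := (hAPE (SG W K g) e b (h0 g hg) (hadd g hg) he.2.1 he.2.2 ⟨h, hhK, hhb, hgh⟩ hb
    he.1).2
  have e2 := (hAPE (SG W K h) e' a (h0 h hh) (hadd h hh) he'.2.1 he'.2.2 ⟨g, hgK, hga, hhg⟩ ha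
    he'.1).2
  rw [hs] at e1
  generalize Set.ncard _ = N at e1 e2
  rw [← e1, ← e2]
  ring

/-- **the number `l`** -/
theorem pf_ELL (hCLI : T_CLI) (hWTK : T_WTK) (hAPE : T_APE) (hND : T_ND) (hFAC : T_FAC) :
    Pool.Agent.H19.SYA.T_ELL := by
  intro k _ _ _ W H y w K hy hK
  -- weights of primes are positive
  have hwt : ∀ (r : ℤ) (h : Pol k 2), Prime h → h ∈ K → h ∈ W r → 0 < r :=
    fun r h hh hhK hhW => hK.ps r h hhK hhW (prime_NC hh)
  -- existence of `e`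
  have hex : ∀ (r : ℤ) (h : Pol k 2), Prime h → h ∈ K → h ∈ W r → ∃ e, EN W K h e := by
    intro r h hh hhK hhW
    obtain ⟨n, f, hf, hfK, hfW, hhf, -⟩ := hND k W K hy.toPGr hK r h hh hhK hhW
    have hn := hwt n f hf hfK hfW
    refine semi (SG W K h) ⟨1, K.one_mem, ?_, fun hd => hh.not_isUnit (isUnit_of_dvd_one hd)⟩ ?_
      ⟨n.toNat, ⟨f, hfK, ?_, hhf⟩, by omega⟩
    · rw [Nat.cast_zero]
      exact hy.one
    · rintro c ⟨u, hu1, hu2, hu3⟩ d ⟨v, hv1, hv2, hv3⟩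
      refine ⟨u * v, K.mul_mem hu1 hv1, ?_, fun hd => (hh.dvd_or_dvd hd).elim hu3 hv3⟩
      push_cast
      exact hy.mul _ _ _ _ hu2 hv2
    · rw [Int.toNat_of_nonneg hn.le]
      exact hfW
  -- a first prime
  obtain ⟨g, r0, hg, hgK, hgW⟩ : ∃ (g : Pol k 2) (r : ℤ), Prime g ∧ g ∈ K ∧ g ∈ W r := by
    obtain ⟨p, q, α, β, hp, -, hpq⟩ := hK.ex
    have hp0 : p ≠ 0 := by
      have := hpq.ai.ne_zero 0
      exact this
    have hpu : ¬ IsUnit p := by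
      intro hu
      have h1 := hy.van α hpq.pa.ne' p hpq.hp
      exact not_isUnit_zero (h1 ▸ hu.map constantCoeff)
    obtain ⟨g, hg, s, hs⟩ := WfDvdMonoid.exists_irreducible_factor hpu hp0
    have hgp : Prime g := UniqueFactorizationMonoid.irreducible_iff_prime.1 hg
    rw [hs] at hp0
    obtain ⟨b, c, hb, -, -⟩ := hFAC k (Pol k 2) ℤ W hy.toGr α g s (hs ▸ hpq.hp) hp0
    exact ⟨g, b, hgp, (hK.fc g s hp0 (hs ▸ hp)).1, hb⟩
  obtain ⟨r1, g', hg', hg'K, hg'W, hgg', hg'g⟩ := hND k W K hy.toPGr hK r0 g hg hgK hgW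
  obtain ⟨e0, he0⟩ := hex r0 g hg hgK hgW
  obtain ⟨e1, he1⟩ := hex r1 g' hg' hg'K hg'W
  have hr0 := hwt r0 g hg hgK hgW
  have hr1 := hwt r1 g' hg' hg'K hg'W
  have hpr : ∀ (p q : Pol k 2) (a b : ℤ) (e e' : ℕ), Prime p → Prime q → p ∈ K → q ∈ K →
      p ∈ W a → q ∈ W b → ¬ p ∣ q → ¬ q ∣ p → EN W K p e → EN W K q e' → e * a = e' * b := by
    intro p q a b e e' hp hq hpK hqK hpW hqW hpq hqp he he'
    have ha := hwt a p hp hpK hpW
    have hb := hwt b q hq hqK hqW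
    have := prod_eq hCLI hAPE k W H y w K hy hK p q a.toNat b.toNat hp hq hpK hqK
      (by rw [Int.toNat_of_nonneg ha.le]; exact hpW) (by rw [Int.toNat_of_nonneg hb.le]; exact hqW)
      hpq hqp (by omega) (by omega) e e' he he'
    have h2 : ((e * a.toNat : ℕ) : ℤ) = ((e' * b.toNat : ℕ) : ℤ) := by rw [this]
    push_cast at h2
    rw [Int.toNat_of_nonneg ha.le, Int.toNat_of_nonneg hb.le] at h2
    exact h2
  refine ⟨e0 * r0.toNat, Nat.mul_pos he0.1 (by omega), ?_⟩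
  intro r h hh hhK hhW
  obtain ⟨e, he⟩ := hex r h hh hhK hhW
  have hr := hwt r h hh hhK hhW
  have hcast : ((e0 * r0.toNat : ℕ) : ℤ) = e0 * r0 := by
    push_cast
    rw [Int.toNat_of_nonneg hr0.le]
  have hdiv : ∀ (n : ℤ) (u : Pol k 2), u ∈ K → u ∈ W n → ¬ h ∣ u → (e : ℤ) ∣ n := by
    intro n u huK huW hhu
    have hu0 : u ≠ 0 := fun h0 => hhu (h0 ▸ dvd_zero h)
    have hn := wt_nonneg hy.toPGr hK huK huW hu0
    have h1 : n.toNat ∈ SG W K h := ⟨u, huK, by rw [Int.toNat_of_nonneg hn]; exact huW, hhu⟩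
    have h2 := Int.natCast_dvd_natCast.2 (he.2.1 _ h1)
    rwa [Int.toNat_of_nonneg hn] at h2
  refine ⟨e, he.1, ?_, ?_, hdiv, ?_⟩
  · rw [hcast]
    by_cases hc : ¬ h ∣ g ∧ ¬ g ∣ h
    · exact hpr h g r r0 e e0 hh hg hhK hgK hhW hgW hc.1 hc.2 he he0
    · have hass : h ∣ g ∧ g ∣ h := by
        rw [not_and_or, not_not, not_not] at hc
        rcases hc with h1 | h1
        · exact ⟨h1, (hh.associated_of_dvd hg h1).symm.dvd⟩
        · exact ⟨(hg.associated_of_dvd hh h1).symm.dvd, h1⟩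
      have h1 := hpr g g' r0 r1 e0 e1 hg hg' hgK hg'K hgW hg'W hgg' hg'g he0 he1
      have h2 := hpr h g' r r1 e e1 hh hg' hhK hg'K hhW hg'W
        (fun hd => hgg' (hass.2.trans hd)) (fun hd => hg'g (hd.trans hass.1)) he he1
      rw [h1, h2]
  · rw [Int.isCoprime_iff_gcd_eq_one]
    have h1 : IsUnit ((Int.gcd (e : ℤ) r : ℕ) : ℤ) := by
      apply hWTK k W H y w K hy hK
      intro n f hfK hfW hf0
      obtain ⟨u, hfe, hu⟩ := (FiniteMultiplicity.of_not_isUnit hh.not_isUnit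
        hf0).exists_eq_pow_mul_and_not_dvd
      generalize multiplicity h f = i at hfe
      subst hfe
      have hi : h ^ i ∈ W ((i : ℤ) * r) := by
        have := pow_mem_gr hy.toGr hhW i
        rw [nsmul_eq_mul] at this
        exact this
      have huK : u ∈ K := (hK.fc (h ^ i) u hf0 hfK).2
      have huW : u ∈ W (n - i * r) := quo_mem hy.toGr hi (pow_ne_zero i hh.ne_zero) hfW rfl
      have h2 := hdiv _ u huK huW hu
      have h3 : ((Int.gcd (e : ℤ) r : ℕ) : ℤ) ∣ n - i * r := (Int.gcd_dvd_left _ _).trans h2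
      have h4 : ((Int.gcd (e : ℤ) r : ℕ) : ℤ) ∣ i * r :=
        Dvd.dvd.mul_left (Int.gcd_dvd_right _ _) _
      have h5 := dvd_add h3 h4
      rwa [sub_add_cancel] at h5
    rw [Int.isUnit_iff] at h1
    omega
  · obtain ⟨M, hM⟩ := he.2.2
    refine ⟨(M : ℤ), fun n hn hd => ?_⟩
    have hn0 : 0 ≤ n := by omega
    have h1 : n.toNat ∈ SG W K h := hM _ (by omega) (by
      rw [← Int.natCast_dvd_natCast, Int.toNat_of_nonneg hn0]
      exact hd)
    obtain ⟨u, huK, huW, hhu⟩ := h1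
    rw [Int.toNat_of_nonneg hn0] at huW
    exact ⟨u, huK, huW, hhu⟩

end Pool.Agent.H81.SYA
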